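import Pool.Agent.helper45.SGK.Spec

/-!
# Row sk:FRA (MP_069684_lc): the frames of an instance
-/

set_option autoImplicit false

namespace Pool.Agent.SGK

open Finset Pool.Agent.helper38.Neg Pool.Agent.helper55.NT
open Pool.Agent.SGC (Sg SCirc Ext Mv hw RN Solv stA stB)

theorem FRA_nil {t : ℕ} (g : Fin (t + 1) → ZMod 2) : fr0 t = fun p q => (fr0 t p q).map fun u => u + g p + g q := by
  funext p q
  unfold fr0
  by_cases h : p = q
  · subst h
    rw [if_pos rfl]
    have h2 : (0 : ZMod 2) + g p + g p = 0 := by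
      rw [zero_add]
      exact CharTwo.add_self_eq_zero _
    rw [Option.map_some, h2]
  · rw [if_neg h]
    rfl

theorem FRA (hUFA : UFA_stmt) (hUFE : UFE_stmt) (hLAB : LAB_stmt) : FRA_stmt := by
  intro k _ cr P n x L hcr
  have hc : ∀ (x : Fin n → Bool) (L : List (Es k (tw k n))) (e : Es k (tw k n)),
      frs cr P x (L ++ [e]) = mrg (frs cr P x L) (ov e.1 (some e.2.1)) (ov e.1 e.2.2) (lab cr P x e) := by
    intro x L e
    unfold frs
    rw [List.foldl_append]
    rfl
  induction L using List.reverseRecOn with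
  | nil =>
    refine ⟨(hUFA _).1, fun e he => absurd he (List.not_mem_nil), fun γ => ?_⟩
    exact FRA_nil _
  | append_singleton L e ih =>
    obtain ⟨ih1, ih2, ih3⟩ := ih
    obtain ⟨u1, u2, u3⟩ := (hUFA (tw k n)).2 (frs cr P x L) (ov e.1 (some e.2.1)) (ov e.1 e.2.2) (lab cr P x e) ih1
    refine ⟨?_, ?_, ?_⟩
    · rw [hc x L e]
      exact u1
    · intro e' he' hl
      rw [hc x L e]
      rw [List.mem_append, List.mem_singleton] at he'
      rcases he' with he' | rfl
      · have h1 := ih2 e' he' hl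
        obtain ⟨u, hu⟩ := Option.ne_none_iff_exists'.mp h1
        rw [u2 _ _ u hu]
        exact Option.some_ne_none u
      · exact u3 hl
    · intro γ
      rw [hc (x ∘ gl γ) L e, hc x L e, ih3 γ, ((hLAB k cr P n γ x hcr).2 e)]
      exact hUFE _ _ _ _ _ _

end Pool.Agent.SGK
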