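import Pool.Agent.helper45.SGK.Spec

/-!
# Row sk:RDC (MP_069684_lc): the reduction from 3SAT to SAT of a predicate with a gadget
-/

set_option autoImplicit false

namespace Pool.Agent.SGK

open Finset Pool.Agent.helper38.Neg Pool.Agent.helper55.NT
open Pool.Agent.SGC (Sg SCirc Ext Mv hw RN Solv stA stB)

theorem RDC_tw (k t : ℕ) [NeZero k] : tw k (t ^ k * 2 ^ k) = t := by
  have hk : k ≠ 0 := NeZero.ne k
  unfold tw
  rw [Nat.findGreatest_eq_iff]
  refine ⟨?_, fun _ => le_rfl, ?_⟩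
  · have h1 : t ≤ t ^ k := Nat.le_self_pow hk t
    have h2 : 1 ≤ 2 ^ k := Nat.one_le_two_pow
    calc t = t * 1 := (mul_one t).symm
      _ ≤ t ^ k * 2 ^ k := Nat.mul_le_mul h1 h2
  · intro m hm _ hcon
    have h1 : t ^ k < m ^ k := Nat.pow_lt_pow_left hm hk
    have h2 : 0 < 2 ^ k := Nat.two_pow_pos k
    exact absurd hcon (not_le.mpr (Nat.mul_lt_mul_of_pos_right h1 h2))

/-- The disjunction of the variables in `S`. -/
noncomputable def RDC_D {n : ℕ} (S : Finset (Fin n)) : Fn n := fun x => decide (∃ i ∈ S, x i = true)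

theorem RDC_D_iff {n : ℕ} (S : Finset (Fin n)) (x : Fin n → Bool) : RDC_D S x = true ↔ ∃ i ∈ S, x i = true := by
  unfold RDC_D
  exact decide_eq_true_iff

theorem RDC_rn {n : ℕ} (S : Finset (Fin n)) : RN (∅ : Set (Fn n)) (S.card + 1) {RDC_D S} := by
  classical
  induction S using Finset.induction_on with
  | empty =>
    refine RN.mono (Rel.mono (Rel.const ∅ false) le_rfl le_rfl le_rfl (by omega : 0 ≤ 1)) le_rfl ?_ (by simp)
    rintro g rfl
    rw [Set.mem_singleton_iff]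
    funext x
    unfold RDC_D
    simp
  | @insert a S ha ih =>
    have h1 : RN (∅ : Set (Fn n)) 0 {fun x => x a} := Rel.var ∅ a
    have h2 := RN.union h1 ih
    have h3 : RN ((∅ : Set (Fn n)) ∪ ({fun x => x a} ∪ {RDC_D S})) 1 {fun x => x a || RDC_D S x} :=
      Rel.mono (Rel.or (u := fun x => x a) (v := RDC_D S) (Or.inr (Or.inl rfl)) (Or.inr (Or.inr rfl)))
        le_rfl le_rfl le_rfl (by omega)
    refine RN.mono (RN.trans' h2 h3) le_rfl ?_ ?_
    · rintro g rfl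
      rw [Set.mem_singleton_iff]
      funext x
      rw [Bool.eq_iff_iff, RDC_D_iff, Bool.or_eq_true, RDC_D_iff]
      simp only [Finset.mem_insert, exists_eq_or_imp]
    · rw [Finset.card_insert_of_notMem ha]
      omega

theorem RDC_u (k : ℕ) [NeZero k] (P : Finset (Wd k)) (n N t : ℕ) (h : tw k N = t) (S : Cl k t → Finset (Fin n)) :
    ∃ T : Fin N → Finset (Fin n), ∀ x : Fin n → Bool, SAT k P N (fun i => RDC_D (T i) x) ↔
      ∃ α : Sg t, ∀ c, RDC_D (S c) x = true → (fun j => α (c.1 j) + c.2 j) ∈ P := by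
  classical
  subst h
  refine ⟨fun i => if h : ∃ c : Cl k (tw k N), ps c = i then S h.choose else ∅, ?_⟩
  intro x
  unfold SAT
  refine exists_congr fun α => forall_congr' fun c => ?_
  have h : ∃ c' : Cl k (tw k N), (ps c' : Fin N) = ps c := ⟨c, rfl⟩
  have h1 : h.choose = c := ps_injective h.choose_spec
  simp only [dif_pos h, h1]

theorem RDC (hRDS : RDS_stmt) (hCMP : Pool.Agent.SGC.CMP_stmt) : RDC_stmt := by
  classical
  rintro k _ Z P K hK ⟨q, hq⟩
  refine ⟨(Polynomial.X + 1 + Polynomial.C Z * Polynomial.X) ^ k * 2 ^ k * (Polynomial.X + 1) +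
    q.comp ((Polynomial.X + 1 + Polynomial.C Z * Polynomial.X) ^ k * 2 ^ k), fun n => ?_⟩
  obtain ⟨t, ht⟩ : ∃ t, t = Pool.Agent.SGC.tv n := ⟨_, rfl⟩
  -- the number of variables
  have hcard : Fintype.card (Vx (Pool.Agent.SGC.tv n) Z) ≤ n + 1 + Z * n := by
    have h1 : Fintype.card (Vx (Pool.Agent.SGC.tv n) Z) =
        Pool.Agent.SGC.tv n + (1 + Pool.Agent.SGC.tv n ^ 3 * 2 ^ 3 * Z) := by
      simp [Vx, Pool.Agent.SGC.Cl, ZMod.card]
    rw [h1]
    have h2 : Pool.Agent.SGC.tv n ≤ n := Nat.findGreatest_le n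
    have h3 := Pool.Agent.SGC.tv_le n
    have h4 : Pool.Agent.SGC.tv n ^ 3 * 2 ^ 3 * Z ≤ n * Z := Nat.mul_le_mul_right _ h3
    rw [Nat.mul_comm Z n]
    omega
  have E : Vx (Pool.Agent.SGC.tv n) Z ≃ Fin (Fintype.card (Vx (Pool.Agent.SGC.tv n) Z)) := Fintype.equivFin _
  obtain ⟨t', ht'⟩ : ∃ t', t' = Fintype.card (Vx (Pool.Agent.SGC.tv n) Z) := ⟨_, rfl⟩
  rw [← ht'] at E hcard
  -- the set of the positions
  obtain ⟨T, hT⟩ := RDC_u k P n (t' ^ k * 2 ^ k) t' (RDC_tw k t') fun c' =>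
    univ.filter fun i : Fin n => ∃ c : Pool.Agent.SGC.Cl (Pool.Agent.SGC.tv n), Pool.Agent.SGC.pos c = i ∧
      ∃ κ ∈ K, (fun j => E (em c (κ.1 j))) = c'.1 ∧ (fun j => sn c (κ.1 j) + κ.2 j) = c'.2
  obtain ⟨s', hs', D, o', hD⟩ := hq (t' ^ k * 2 ^ k)
  have h1 : RN (∅ : Set (Fn n)) (t' ^ k * 2 ^ k * (n + 1)) (Set.range fun i => RDC_D (T i)) := by
    have h2 := RN.biUnion (F := (∅ : Set (Fn n))) (m := n + 1) (univ : Finset (Fin (t' ^ k * 2 ^ k))) (fun i => {RDC_D (T i)}) fun i _ =>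
      RN.mono (RDC_rn (T i)) le_rfl le_rfl (by
        have := Finset.card_le_univ (T i)
        rw [Fintype.card_fin] at this
        omega)
    rw [card_univ, Fintype.card_fin] at h2
    refine RN.mono h2 le_rfl ?_ le_rfl
    rintro g ⟨i, rfl⟩
    simp only [Set.mem_iUnion, exists_prop]
    exact ⟨i, mem_univ i, rfl⟩
  have h2 := hCMP _ n s' D fun i => RDC_D (T i)
  have h3 : RN (∅ : Set (Fn n)) (t' ^ k * 2 ^ k * (n + 1) + s') {fun x => D.val (fun i => RDC_D (T i) x) o'} := by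
    refine RN.mono (RN.trans' h1 (RN.mono h2 ?_ le_rfl le_rfl)) le_rfl ?_ le_rfl
    · exact Set.subset_union_right
    · rintro g rfl
      exact ⟨o', rfl⟩
  obtain ⟨s₁, hs₁, C', o₁, hC'⟩ := RN.toCircuit h3
  refine ⟨s₁, ?_, C', o₁, ?_⟩
  · have e1 : ((Polynomial.X + 1 + Polynomial.C Z * Polynomial.X) ^ k * 2 ^ k * (Polynomial.X + 1) +
        q.comp ((Polynomial.X + 1 + Polynomial.C Z * Polynomial.X) ^ k * 2 ^ k) : Polynomial ℕ).eval n =
        (n + 1 + Z * n) ^ k * 2 ^ k * (n + 1) + q.eval ((n + 1 + Z * n) ^ k * 2 ^ k) := by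
      simp [Polynomial.eval_comp]
    rw [e1]
    have e2 : t' ^ k * 2 ^ k ≤ (n + 1 + Z * n) ^ k * 2 ^ k :=
      Nat.mul_le_mul_right _ (Nat.pow_le_pow_left hcard k)
    have e3 := eval_mono q e2
    have e4 : t' ^ k * 2 ^ k * (n + 1) ≤ (n + 1 + Z * n) ^ k * 2 ^ k * (n + 1) := Nat.mul_le_mul_right _ e2
    omega
  · intro x
    rw [hC' x, hD, hT x]
    have hR := hRDS k Z P K hK (Pool.Agent.SGC.tv n) fun c => x (Pool.Agent.SGC.pos c) = true
    show _ ↔ ∃ α : Sg (Pool.Agent.SGC.tv n), ∀ c, x (Pool.Agent.SGC.pos c) = true → ∃ l, α (c.1 l) = c.2 l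
    rw [hR]
    constructor
    · rintro ⟨α, hα⟩
      refine ⟨fun v => α (E v), fun c hc κ hκ => ?_⟩
      exact hα ((fun j => E (em c (κ.1 j))), fun j => sn c (κ.1 j) + κ.2 j) (by
        rw [RDC_D_iff]
        exact ⟨Pool.Agent.SGC.pos c, by
          rw [Finset.mem_filter]
          exact ⟨mem_univ _, c, rfl, κ, hκ, rfl, rfl⟩, hc⟩)
    · rintro ⟨β, hβ⟩
      refine ⟨fun q => β (E.symm q), fun c' hc' => ?_⟩
      rw [RDC_D_iff] at hc'
      obtain ⟨i, hi, hx⟩ := hc'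
      rw [Finset.mem_filter] at hi
      obtain ⟨-, c, rfl, κ, hκ, h5, h6⟩ := hi
      have h7 := hβ c hx κ hκ
      rw [← h5, ← h6]
      simp only [Equiv.symm_apply_apply]
      exact h7

end Pool.Agent.SGK
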